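import Pool.Agent.H694.Algo

/-!
# Polynomial-time certification of simple connectivity for random 2-complexes

For every `c > 1/√(256/27)` there is a polynomial-time certifier of simple connectivity that
answers yes on the Linial-Meshulam complex `Y₂(n, c/√n)` with probability tending to one.
-/

namespace Pool.Agent.Results.MP_427cf7_lc.PolyTimeCertifier

open Filter Topology Finset
open Pool.Agent.NPC (PolyTime bits)

/-- A finite 2-dimensional complex as an input: the list of its vertices, the list of its edges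
(pairs of vertices) and the list of its 2-faces (triples of vertices). -/
abbrev Input := List ℕ × List (ℕ × ℕ) × List (ℕ × ℕ × ℕ)

/-- The lists describe a simplicial complex: the ends of an edge are two distinct vertices; the
three vertices of a 2-face are distinct and any two of them are joined by an edge. -/
def IsComplex (Y : Input) : Prop :=
  (∀ e ∈ Y.2.1, e.1 ≠ e.2 ∧ e.1 ∈ Y.1 ∧ e.2 ∈ Y.1) ∧
  ∀ f ∈ Y.2.2, (f.1 ≠ f.2.1 ∧ f.2.1 ≠ f.2.2 ∧ f.1 ≠ f.2.2) ∧
    ((f.1, f.2.1) ∈ Y.2.1 ∨ (f.2.1, f.1) ∈ Y.2.1) ∧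
    ((f.2.1, f.2.2) ∈ Y.2.1 ∨ (f.2.2, f.2.1) ∈ Y.2.1) ∧
    ((f.1, f.2.2) ∈ Y.2.1 ∨ (f.2.2, f.1) ∈ Y.2.1)

/-- The simplices, as sets of vertices. -/
def simplices (Y : Input) : Set (Finset ℕ) :=
  {s | (∃ v ∈ Y.1, s = {v}) ∨ (∃ e ∈ Y.2.1, s = {e.1, e.2}) ∨
    ∃ f ∈ Y.2.2, s = {f.1, f.2.1, f.2.2}}

/-- The geometric realization: the points with nonnegative barycentric coordinates of sum one
whose support lies in a simplex (with the topology of the product `ℕ → ℝ`). -/
def Realization (Y : Input) : Set (ℕ → ℝ) :=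
  {w | (∀ v, 0 ≤ w v) ∧ ∃ s ∈ simplices Y, (∀ v, v ∉ s → w v = 0) ∧ ∑ v ∈ s, w v = 1}

/-- The lists `Y` list the complex with the vertices `0, …, n - 1`, all edges between them, and the
set `F` of 2-faces. -/
def Lists (n : ℕ) (F : Finset (Finset ℕ)) (Y : Input) : Prop :=
  (∀ v, v ∈ Y.1 ↔ v < n) ∧
  (∀ s : Finset ℕ, (∃ e ∈ Y.2.1, s = {e.1, e.2}) ↔ s ∈ powersetCard 2 (range n)) ∧
  (∀ s : Finset ℕ, (∃ f ∈ Y.2.2, s = {f.1, f.2.1, f.2.2}) ↔ s ∈ F)

open Classical in
/-- The probability that `A` answers yes (outputs `[true]`) on all lists describing the random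
complex `Y₂(n, p)`: each of the triangles on `0, …, n - 1` is a 2-face with probability `p`,
independently. -/
noncomputable def prYes (A : List Bool → List Bool) (n : ℕ) (p : ℝ) : ℝ :=
  ∑ F ∈ (powersetCard 3 (range n)).powerset, p ^ F.card * (1 - p) ^ (n.choose 3 - F.card) *
    (if ∀ Y : Input, Lists n F Y → A (bits Y) = [true] then 1 else 0)

open Pool.Agent.H694

theorem edge_mem {E : List (ℕ × ℕ)} {x y : ℕ} (h : edgeT E x y = true) :
    (x, y) ∈ E ∨ (y, x) ∈ E := by
  simpa [edgeT] using h

theorem real_eq (Y : Input) : Realization Y = Rl (simplices Y) := by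
  ext w
  constructor
  · rintro ⟨h0, s, hs, h1, h2⟩
    exact ⟨s, hs, h0, h1, h2⟩
  · rintro ⟨s, hs, h0, h1, h2⟩
    exact ⟨h0, s, hs, h1, h2⟩

theorem chk_complex {Y : Input} (h : chk Y = true) : IsComplex Y := by
  simp only [chk, Bool.and_eq_true, List.all_eq_true, Bool.not_eq_true', decide_eq_true_eq,
    decide_eq_false_iff_not] at h
  refine ⟨fun e he => h.1 e he, fun f hf => ?_⟩
  have h1 := h.2 f hf
  exact ⟨h1.1, edge_mem h1.2.1, edge_mem h1.2.2.1, edge_mem h1.2.2.2⟩

theorem sound {T : Finset Tr} (hT : ∀ t ∈ T, t.ok ∧ t.md = 1) {Y : Input}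
    (h : test T.toList Y = true) : IsComplex Y ∧ SimplyConnectedSpace (Realization Y) := by
  simp only [test, Bool.and_eq_true] at h
  obtain ⟨h1, h2, h3⟩ := h
  have hc := chk_complex h1
  refine ⟨hc, ?_⟩
  rw [real_eq]
  simp only [full, Bool.and_eq_true, List.all_eq_true, Bool.or_eq_true, decide_eq_true_eq] at h2
  obtain ⟨hne, hfull⟩ := h2
  obtain ⟨v₀, hv₀⟩ : ∃ v₀, v₀ ∈ Y.1 := by
    cases hY : Y.1 with
    | nil => rw [hY] at hne; simp at hne
    | cons v l => exact ⟨v, by simp⟩
  have hvert : ∀ {x y : ℕ}, ((x, y) ∈ Y.2.1 ∨ (y, x) ∈ Y.2.1) → x ∈ Y.1 ∧ y ∈ Y.1 := by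
    rintro x y (hxy | hxy)
    · exact (hc.1 _ hxy).2
    · exact (hc.1 _ hxy).2.symm
  have hF : Full (simplices Y) {v | v ∈ Y.1} v₀ := by
    refine ⟨hv₀, ?_, ?_⟩
    · rintro s (⟨v, hv, rfl⟩ | ⟨e, he, rfl⟩ | ⟨f, hf, rfl⟩) u hu
      · rw [mem_singleton] at hu
        subst hu
        exact hv
      · simp only [mem_insert, mem_singleton] at hu
        rcases hu with rfl | rfl
        · exact (hc.1 e he).2.1
        · exact (hc.1 e he).2.2
      · simp only [mem_insert, mem_singleton] at hu
        have h4 := (hc.2 f hf).2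
        rcases hu with rfl | rfl | rfl
        · exact (hvert h4.1).1
        · exact (hvert h4.1).2
        · exact (hvert h4.2.1).2
    · intro x hx y hy
      rcases hfull x hx y hy with hxy | hxy
      · subst hxy
        exact ⟨{x}, Or.inl ⟨x, hx, rfl⟩, by simp, by simp⟩
      · rcases edge_mem hxy with hxy | hxy
        · exact ⟨{x, y}, Or.inr (Or.inl ⟨(x, y), hxy, rfl⟩), by simp, by simp⟩
        · exact ⟨{y, x}, Or.inr (Or.inl ⟨(y, x), hxy, rfl⟩), by simp, by simp⟩
  refine hF.sound (T := T) (W := Y.1.toFinset) (F := (Y.2.2.map fs).toFinset) hT ?_ ?_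
  · intro f hf
    simp only [List.mem_toFinset, List.mem_map] at hf
    obtain ⟨g, hg, rfl⟩ := hf
    exact Or.inr (Or.inr ⟨g, hg, rfl⟩)
  · intro x hx y hy hvx hxy hvy
    simp only [List.all_eq_true, Bool.or_eq_true, decide_eq_true_eq] at h3
    have h4 := h3 (v₀, x, y) (mem_trip.2 ⟨hv₀, hx, hy⟩)
    rcases h4 with h4 | h4 | h4 | h4
    · exact absurd h4 hvx
    · exact absurd h4 hxy
    · exact absurd h4 hvy
    · exact ⟨_, (mem_iter.1 h4).2⟩

theorem complete {T : Finset Tr} {n : ℕ} (hn : 1 ≤ n) {F : Finset (Finset ℕ)}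
    (hF : F ⊆ powersetCard 3 (range n)) (hG : Good T n F) {Y : Input} (hY : Lists n F Y) :
    test T.toList Y = true := by
  obtain ⟨hV, hE, hf⟩ := hY
  have hVf : Y.1.toFinset = range n := by
    ext v
    rw [List.mem_toFinset, hV, mem_range]
  have hFf : (Y.2.2.map fs).toFinset = F := by
    ext s
    rw [← hf s]
    simp only [List.mem_toFinset, List.mem_map]
    constructor
    · rintro ⟨f, hf, rfl⟩; exact ⟨f, hf, rfl⟩
    · rintro ⟨f, hf, rfl⟩; exact ⟨f, hf, rfl⟩
  have hedge : ∀ x y, x < n → y < n → x ≠ y → edgeT Y.2.1 x y = true := by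
    intro x y hx hy hxy
    have h1 : ({x, y} : Finset ℕ) ∈ powersetCard 2 (range n) := by
      rw [mem_powersetCard]
      refine ⟨?_, card_pair hxy⟩
      intro v hv
      simp only [mem_insert, mem_singleton] at hv
      rcases hv with rfl | rfl
      · exact mem_range.2 hx
      · exact mem_range.2 hy
    obtain ⟨e, he, h2⟩ := (hE _).2 h1
    obtain ⟨e₁, e₂⟩ := e
    simp only at h2
    have h3 : e₁ = x ∨ e₁ = y := by
      have : e₁ ∈ ({x, y} : Finset ℕ) := by rw [h2]; simp
      simpa using this
    have h4 : e₂ = x ∨ e₂ = y := by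
      have : e₂ ∈ ({x, y} : Finset ℕ) := by rw [h2]; simp
      simpa using this
    have h5 : x = e₁ ∨ x = e₂ := by
      have : x ∈ ({e₁, e₂} : Finset ℕ) := by rw [← h2]; simp
      simpa using this
    have h6 : y = e₁ ∨ y = e₂ := by
      have : y ∈ ({e₁, e₂} : Finset ℕ) := by rw [← h2]; simp
      simpa using this
    simp only [edgeT, Bool.or_eq_true, decide_eq_true_eq]
    rcases h5 with h5 | h5
    · rcases h6 with h6 | h6
      · exact absurd (h5.trans h6.symm) hxy
      · left; rw [h5, h6]; exact he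
    · rcases h6 with h6 | h6
      · right; rw [h5, h6]; exact he
      · exact absurd (h5.trans h6.symm) hxy
  have hchk : chk Y = true := by
    simp only [chk, Bool.and_eq_true, List.all_eq_true, Bool.not_eq_true', decide_eq_true_eq,
      decide_eq_false_iff_not]
    constructor
    · intro e he
      have h1 := (hE {e.1, e.2}).1 ⟨e, he, rfl⟩
      rw [mem_powersetCard] at h1
      refine ⟨?_, ?_, ?_⟩
      · intro h2
        rw [h2] at h1
        simp at h1
      · rw [hV]; exact mem_range.1 (h1.1 (by simp))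
      · rw [hV]; exact mem_range.1 (h1.1 (by simp))
    · intro f hf'
      have h1 := hF ((hf {f.1, f.2.1, f.2.2}).1 ⟨f, hf', rfl⟩)
      rw [mem_powersetCard] at h1
      have h2 : f.1 < n := mem_range.1 (h1.1 (by simp))
      have h3 : f.2.1 < n := mem_range.1 (h1.1 (by simp))
      have h4 : f.2.2 < n := mem_range.1 (h1.1 (by simp))
      have h5 : f.1 ≠ f.2.1 := by
        intro h
        have h6 := h1.2
        rw [h, insert_eq_of_mem (by simp)] at h6
        have := card_le_two (a := f.2.1) (b := f.2.2)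
        omega
      have h6 : f.2.1 ≠ f.2.2 := by
        intro h
        have h6 := h1.2
        rw [h, insert_eq_of_mem (by simp : f.2.2 ∈ ({f.2.2} : Finset ℕ))] at h6
        have := card_le_two (a := f.1) (b := f.2.2)
        omega
      have h7 : f.1 ≠ f.2.2 := by
        intro h
        have h6 := h1.2
        rw [h, insert_eq_of_mem (by simp)] at h6
        have := card_le_two (a := f.2.1) (b := f.2.2)
        omega
      exact ⟨⟨h5, h6, h7⟩, hedge _ _ h2 h3 h5, hedge _ _ h3 h4 h6, hedge _ _ h2 h4 h7⟩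
  have hfull : full Y = true := by
    simp only [full, Bool.and_eq_true, List.all_eq_true, Bool.or_eq_true, decide_eq_true_eq,
      Bool.not_eq_true']
    constructor
    · have h0 : 0 ∈ Y.1 := (hV 0).2 (by omega)
      cases hY : Y.1 with
      | nil => rw [hY] at h0; simp at h0
      | cons v l => rfl
    · intro x hx y hy
      by_cases hxy : x = y
      · exact Or.inl hxy
      · exact Or.inr (hedge x y ((hV x).1 hx) ((hV y).1 hy) hxy)
  simp only [test, Bool.and_eq_true, hchk, hfull, true_and]
  simp only [List.all_eq_true, Bool.or_eq_true, decide_eq_true_eq]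
  rintro ⟨x, y, z⟩ hg
  rw [mem_trip] at hg
  simp only at hg ⊢
  by_cases h1 : x = y
  · exact Or.inl h1
  · by_cases h2 : y = z
    · exact Or.inr (Or.inl h2)
    · by_cases h3 : x = z
      · exact Or.inr (Or.inr (Or.inl h3))
      · refine Or.inr (Or.inr (Or.inr ?_))
        rw [mem_iter]
        refine ⟨hg, ?_⟩
        simp only [hVf, hFf]
        have h4 := hG x (mem_range.2 ((hV x).1 hg.1)) y (mem_range.2 ((hV y).1 hg.2.1)) z
          (mem_range.2 ((hV z).1 hg.2.2)) h1 h2 h3
        refine cl_mono ?_ h4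
        have h5 := List.toFinset_card_le Y.1
        rw [hVf, card_range] at h5
        simp only [List.length_cons]
        omega

/-- the test on bit strings -/
noncomputable def acc (T : Finset Tr) (x : List Bool) : Bool :=
  match Pool.Agent.NPC.unbits Cx x with
  | none => false
  | some Y => test T.toList Y

theorem poly_acc (T : Finset Tr) : Pool.Agent.NPC.Poly (acc T) := by
  have h := Pool.Agent.NPC.Poly.optCases (α := List Bool) (o := Pool.Agent.NPC.unbits Cx)
    (g := fun _ => false) (h := fun _ Y => test T.toList Y) Pool.Agent.NPC.poly_unbits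
    (Pool.Agent.NPC.Poly.const _)
    ((poly_test T.toList).comp (Pool.Agent.NPC.Poly.snd Pool.Agent.NPC.Poly.id))
  refine h.congr fun x => ?_
  unfold acc
  cases Pool.Agent.NPC.unbits Cx x <;> rfl

theorem acc_true {T : Finset Tr} {x : List Bool} (h : acc T x = true) :
    ∃ Y : Input, bits Y = x ∧ test T.toList Y = true := by
  unfold acc at h
  cases hu : Pool.Agent.NPC.unbits Cx x with
  | none => rw [hu] at h; simp at h
  | some Y =>
    rw [hu] at h
    exact ⟨Y, Pool.Agent.NPC.bits_of_unbits hu, h⟩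

theorem acc_bits (T : Finset Tr) (Y : Input) : acc T (bits Y) = test T.toList Y := by
  unfold acc
  rw [Pool.Agent.NPC.unbits_bits]

/-- **For every `c > 1/√γ`, `γ = 256/27`, there is a polynomial-time certifier of simple
connectivity that answers yes on `Y₂(n, c/√n)` with probability `1 - o(1)`.** -/
theorem result (c : ℝ) (hc : 1 / Real.sqrt (256 / 27) < c) :
    ∃ A : List Bool → List Bool, PolyTime A ∧
      (∀ x, A x = [true] →
        ∃ Y : Input, bits Y = x ∧ IsComplex Y ∧ SimplyConnectedSpace (Realization Y)) ∧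
      Tendsto (fun n : ℕ => prYes A n (c / Real.sqrt n)) atTop (𝓝 1) := by
  have hs : 0 < Real.sqrt (256 / 27) := Real.sqrt_pos.2 (by norm_num)
  have hc0 : 0 < c := lt_trans (by positivity) hc
  have hc2 : 27 / 256 < c ^ 2 := by
    have h1 : (1 / Real.sqrt (256 / 27)) ^ 2 < c ^ 2 :=
      pow_lt_pow_left₀ hc (by positivity) (by norm_num)
    rw [div_pow, Real.sq_sqrt (by norm_num)] at h1
    norm_num at h1
    linarith
  obtain ⟨T, hT, hlim⟩ := main_prob hc0 hc2
  refine ⟨fun x => [acc T x], Pool.Agent.NPC.polyTime_of_poly (poly_acc T), ?_, ?_⟩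
  · intro x hx
    simp only [List.cons.injEq, and_true] at hx
    obtain ⟨Y, h1, h2⟩ := acc_true hx
    exact ⟨Y, h1, sound hT h2⟩
  · have hsq : Tendsto (fun n : ℕ => Real.sqrt n) atTop atTop :=
      Real.tendsto_sqrt_atTop.comp tendsto_natCast_atTop_atTop
    have hcard : ∀ n : ℕ, n.choose 3 = (powersetCard 3 (range n)).card := by
      intro n; rw [card_powersetCard, card_range]
    refine tendsto_of_tendsto_of_tendsto_of_le_of_le' hlim tendsto_const_nhds ?_ ?_
    · filter_upwards [hsq.eventually_ge_atTop (c + 1), eventually_ge_atTop 1] with n hs hn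
      have hs0 : 0 < Real.sqrt n := by linarith
      unfold prYes
      rw [hcard n]
      refine ex_mono (by positivity) (by rw [div_le_one hs0]; linarith) ?_
      intro F hF
      by_cases hG : Good T n F
      · rw [if_pos hG, if_pos]
        intro Y hY
        simp only [acc_bits, complete hn hF hG hY]
      · rw [if_neg hG]
        split_ifs <;> norm_num
    · filter_upwards [hsq.eventually_ge_atTop (c + 1)] with n hs
      have hs0 : 0 < Real.sqrt n := by linarith
      unfold prYes
      rw [hcard n]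
      calc _ ≤ ex (powersetCard 3 (range n)) (c / Real.sqrt n) (fun _ => 1) := by
            apply ex_mono (by positivity) (by rw [div_le_one hs0]; linarith)
            intro F _
            split_ifs <;> norm_num
        _ = 1 := ex_const 1

end Pool.Agent.Results.MP_427cf7_lc.PolyTimeCertifier
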